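import Mathlib
import Pool.Agent.H21.EditDef

namespace Pool.Agent.Results.MP_a407c4_co.Counter

open Pool.Agent.H21.Edit

def lev : List Bool → List Bool → ℕ
  | [], t => t.length
  | s, [] => s.length
  | x :: s, y :: t =>
    min (lev s (y :: t) + 1) (min (lev (x :: s) t + 1) (lev s t + if x = y then 0 else 1))

theorem lev_nil (s : List Bool) : lev s [] = s.length := by cases s <;> simp [lev]

theorem levA (c : Bool) (b t : List Bool) : lev (c :: b) t ≤ lev b t + 1 := by
  cases t <;> simp [lev, lev_nil]

theorem levA' (c : Bool) (b t : List Bool) : lev b (c :: t) ≤ lev b t + 1 := by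
  cases b <;> simp [lev]

theorem levB (c : Bool) (b t : List Bool) : lev b t ≤ lev (c :: b) t + 1 := by
  induction t with
  | nil => simp [lev_nil]; omega
  | cons y t ih => have := levA' y b t; rw [lev]; omega

theorem levC (c d : Bool) (b t : List Bool) : lev (c :: b) t ≤ lev (d :: b) t + 1 := by
  induction t with
  | nil => simp [lev_nil]
  | cons y t ih => rw [lev, lev]; split_ifs <;> omega

theorem levD (a u w : List Bool) (h : ∀ t, lev u t ≤ lev w t + 1) (t : List Bool) :
    lev (a ++ u) t ≤ lev (a ++ w) t + 1 := by
  induction a generalizing t with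
  | nil => exact h t
  | cons x a iha =>
    induction t with
    | nil => have := iha []; simp only [lev_nil, List.cons_append, List.length_cons] at *; omega
    | cons y t ih =>
      have h1 := iha t
      have h2 := iha (y :: t)
      simp only [List.cons_append] at *
      rw [lev, lev]; omega

theorem lev_self (s : List Bool) : lev s s = 0 := by
  induction s with
  | nil => simp [lev]
  | cons x s ih => simp [lev, ih]

theorem lev_le {k : ℕ} {s t : List Bool} (h : Chain k s t) : lev s t ≤ k := by
  induction h with
  | zero s => rw [lev_self]
  | @succ k s u t h _ ih =>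
    refine le_trans ?_ (Nat.add_le_add_right ih 1)
    cases h with
    | ins a b c => exact levD a _ _ (levB c b) t
    | del a b c => exact levD a _ _ (levA c b) t
    | sub a b c d => exact levD a _ _ (levC c d b) t

theorem chain_cons {k : ℕ} {s t : List Bool} (x : Bool) (h : Chain k s t) :
    Chain k (x :: s) (x :: t) := by
  induction h with
  | zero s => exact .zero _
  | succ h _ ih =>
    refine .succ ?_ ih
    cases h with
    | ins a b c => exact .ins (x :: a) b c
    | del a b c => exact .del (x :: a) b c
    | sub a b c d => exact .sub (x :: a) b c d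

theorem chain_ins {k : ℕ} {s t : List Bool} (x : Bool) (h : Chain k s t) :
    Chain (k + 1) s (x :: t) := .succ (.ins [] s x) (chain_cons x h)

theorem chain_lev (s t : List Bool) : Chain (lev s t) s t := by
  fun_induction lev s t with
  | case1 t =>
    induction t with
    | nil => exact .zero _
    | cons y t ih => exact chain_ins y ih
  | case2 s _ =>
    clear * -
    induction s with
    | nil => exact .zero _
    | cons y s ih => exact .succ (.del [] s y) ih
  | case3 x s y t h1 h2 h3 =>
    have e1 : Chain (lev s (y :: t) + 1) (x :: s) (y :: t) := .succ (.del [] s x) h1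
    have e2 := chain_ins y h2
    have e3 : Chain (lev s t + if x = y then 0 else 1) (x :: s) (y :: t) := by
      split_ifs with h
      · subst h; exact chain_cons x h3
      · exact .succ (.sub [] s x y) (chain_cons y h3)
    simp only [min_def]
    split_ifs <;> first | exact e1 | exact e2 | simpa [*] using e3

theorem edit_eq (s t : List Bool) : edit s t = lev s t :=
  le_antisymm (Nat.sInf_le (chain_lev s t)) (le_csInf ⟨_, chain_lev s t⟩ fun _ h => lev_le h)

def row : List Bool → List Bool → List ℕ
  | [], t => [lev [] t]
  | x :: s, t => lev (x :: s) t :: row s t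

def next (y : Bool) : List Bool → List ℕ → List ℕ
  | [], r => [r.headD 0 + 1]
  | x :: s, r => min ((next y s r.tail).headD 0 + 1)
      (min (r.headD 0 + 1) (r.tail.headD 0 + if x = y then 0 else 1)) :: next y s r.tail

def init : List Bool → List ℕ
  | [] => [0]
  | x :: s => (x :: s).length :: init s

def dp (s t : List Bool) : ℕ := (t.foldr (fun y r => next y s r) (init s)).headD 0

theorem row_head (s t : List Bool) : (row s t).headD 0 = lev s t := by cases s <;> simp [row]

theorem next_row (y : Bool) (s t : List Bool) : next y s (row s t) = row s (y :: t) := by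
  induction s with
  | nil => simp [next, row, lev]
  | cons x s ih => simp only [next, row, List.tail_cons, ih, row_head, List.headD_cons, lev]

theorem dp_eq (s t : List Bool) : dp s t = edit s t := by
  rw [edit_eq, dp, ← row_head]
  congr 1
  induction t with
  | nil => induction s <;> simp_all [init, row, lev_nil]
  | cons y t ih => rw [List.foldr_cons, ih, next_row]

def str : ℕ → List (List Bool)
  | 0 => [[]]
  | n + 1 => (str n).map (false :: ·) ++ (str n).map (true :: ·)

theorem mem_str (s : List Bool) : s ∈ str s.length := by
  induction s with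
  | nil => simp [str]
  | cons x s ih => cases x <;> simp [str, ih]

def B : List (List Bool) :=
  [[false,false,false,true,false,false,true,true], [false,false,true,false,false,false,false,true], [false,false,true,false,true,false,true,true], [false,false,true,true,false,true,true,true], [false,false,true,true,true,false,true,true], [false,true,false,false,false,false,false,false], [false,true,false,false,false,false,true,true], [false,true,true,true,false,false,false,true], [false,true,true,true,true,false,true,true], [true,false,false,false,false,true,false,false], [true,false,false,false,true,true,true,false], [true,true,false,false,false,false,false,true], [true,true,false,false,false,false,true,false], [true,true,false,true,true,true,false,false], [true,true,false,true,true,true,true,false], [true,true,true,false,true,false,false,false], [true,true,true,false,true,true,false,false]]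

def T : List (List Bool × ℕ) := (str 8).zip
  [6755, 2791, 7783, 6271, 5731, 6767, 5743, 1615, 34343, 2679, 5751, 1887, 75296, 1631, 17997, 1117, 675, 2303, 5759, 479, 9775, 1759, 18013, 1117, 9907, 1951, 18205, 1373, 26128, 9501, 25629, 17693, 39654, 6399, 4863, 479, 66095, 735, 1631, 1119, 98999, 33759, 34591, 351, 108062, 65823, 91165, 17695, 32955, 479, 415, 479, 107166, 415, 83229, 415, 41366, 8607, 26013, 415, 91544, 17822, 17692, 285, 39650, 6883, 7907, 8167, 81506, 7911, 22119, 7279, 113379, 39911, 55143, 6527, 124448, 76155, 95336, 17757, 47843, 39399, 54247, 6655, 123558, 10751, 95613, 17885, 123298, 76287, 95741, 16861, 91568, 26012, 25884, 24925, 105186, 39398, 39910, 6655, 113314, 72191, 95741, 17887, 113062, 104959, 127484, 49631, 123304, 123294, 124172, 90460, 104866, 39419, 102905, 479, 106936, 98718, 115100, 66013, 106928, 106902, 123284, 477, 123264, 90520, 90392, 16796, 40482, 6755, 7779, 7783, 81504, 7783, 24161, 7757, 114209, 40551, 56933, 7773, 128544, 81489, 95808, 18013, 47651, 39655, 56935, 7775, 128550, 15967, 95821, 18013, 124578, 77471, 95773, 17757, 91664, 26396, 26136, 25885,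 105058, 39654, 40678, 7903, 114210, 73423, 95821, 17999, 114342, 113367, 128532, 50527, 124416, 124702, 124428, 91420, 113314, 47323, 127513, 479, 123400, 123806, 124700, 83229, 123024, 123286, 124308, 24989, 124800, 91544, 91416, 17692, 113248, 39650, 57058, 7907, 130592, 81634, 97888, 24128, 130592, 113379, 130656, 56645, 130592, 130560, 128512, 97344, 129698, 112867, 129633, 55749, 129568, 129924, 128772, 97613, 129184, 129408, 128256, 96605, 124416, 93456, 95232, 25880, 105122, 104674, 105184, 39366, 113312, 105346, 128896, 89544, 112800, 113030, 128388, 121308, 124416, 125320, 128008, 124172, 112800, 113026, 127360, 39385, 123776, 125336, 127256, 82328, 123264, 125328, 127248, 123284, 122880, 123264, 124160, 90392]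

theorem h0 : T.map Prod.fst = str 8 := by decide +kernel

theorem h1 : (T.all fun p => (List.range 17).all fun k =>
    !(p.2.testBit k) || dp p.1 (B.getD k []) ≤ 3) = true := by decide +kernel

theorem h2 : (T.all fun p => T.all fun q =>
    ((p.2 &&& q.2) % 2 ^ 17 != 0) || 3 < dp p.1 q.1) = true := by decide +kernel

def s0 : List Bool := [false,false,true,true,false,false,true,true]
def t0 : List Bool := [true,true,false,false,true,true,false,false]

theorem h3 : dp s0 t0 ≤ 4 ∧ ∀ v ∈ B, v.length = 8 ∧ (4 < dp s0 v ∨ 4 < dp t0 v) := by
  decide +kernel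

theorem result : ∃ B : Set (List.Vector Bool 8), Guaranteed 8 3 3 B ∧ ¬ Guaranteed 8 4 4 B := by
  refine ⟨{v | v.1 ∈ B}, fun s t h => ?_, fun h => ?_⟩
  · have hs : s.1 ∈ T.map Prod.fst := by have := mem_str s.1; rwa [s.2, ← h0] at this
    have ht : t.1 ∈ T.map Prod.fst := by have := mem_str t.1; rwa [t.2, ← h0] at this
    obtain ⟨p, hp, hps⟩ := List.mem_map.1 hs
    obtain ⟨q, hq, hqt⟩ := List.mem_map.1 ht
    have a2 := List.all_eq_true.1 (List.all_eq_true.1 h2 p hp) q hq
    rw [hps, hqt, dp_eq] at a2
    have a3 : (p.2 &&& q.2) % 2 ^ 17 ≠ 0 := by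
      simp only [Bool.or_eq_true, bne_iff_ne, decide_eq_true_eq] at a2; omega
    obtain ⟨k, hk⟩ := Nat.exists_testBit_of_ne_zero a3
    simp only [Nat.testBit_mod_two_pow, Nat.testBit_and, Bool.and_eq_true, decide_eq_true_eq] at hk
    have b1 := List.all_eq_true.1 (List.all_eq_true.1 h1 p hp) k (List.mem_range.2 hk.1)
    have b2 := List.all_eq_true.1 (List.all_eq_true.1 h1 q hq) k (List.mem_range.2 hk.1)
    have hB : B.getD k [] ∈ B := by
      rw [List.getD_eq_getElem _ _ (show k < B.length from hk.1)]; exact List.getElem_mem _
    refine ⟨⟨B.getD k [], (h3.2 _ hB).1⟩, ?_, ?_, hB⟩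
    · simpa [hk.2.1, hps, dp_eq] using b1
    · simpa [hk.2.2, hqt, dp_eq] using b2
  · obtain ⟨v, a, b, hv⟩ := h ⟨s0, rfl⟩ ⟨t0, rfl⟩ (by rw [← dp_eq]; exact h3.1)
    have := (h3.2 _ hv).2
    rw [dp_eq, dp_eq] at this
    dsimp only at a b
    omega

end Pool.Agent.Results.MP_a407c4_co.Counter
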